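import Pool.Agent.H80.Tame2

open Pool.Agent.H80.Tame

theorem Pool.Agent.Results.MP_0a8f3f_ag.AlwaysTame.result (k : ℕ) (f : S k) (d : ℕ)
    (hf : f.IsHomogeneous d) (hd : d ≠ 0) (hs : Squarefree f) :
    ∃ (m : ℕ) (ρ : Fin m → Vec k) (ι : Fin k → Fin m), IsMinGen f ρ ∧ Function.Injective ι ∧
      IsTame f (ρ ∘ ι) :=
  always_tame f d hf hd hs
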